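import Mathlib

/-! Nielsen–Schreier with control of the loops at the base vertex: if a basis element of a free
group lies in a subgroup, it is a basis element of the subgroup.

The code of this file follows Mathlib's `GroupTheory/FreeGroup/NielsenSchreier.lean`
(D. Wärn), where only the existence of a basis is stated. -/

set_option autoImplicit false

universe u

noncomputable section

namespace PW6

open CategoryTheory CategoryTheory.ActionCategory CategoryTheory.SingleObj Quiver FreeGroup
open IsFreeGroupoid

set_option backward.isDefEq.respectTransparency.types false in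
/-- the action groupoid of the free group on `X`, with generating arrows labelled by `X` -/
@[reducible] def actFree {X A : Type u} [MulAction (FreeGroup X) A] :
    IsFreeGroupoid (ActionCategory (FreeGroup X) A) where
  quiverGenerators :=
    ⟨fun a b => { e : X // FreeGroup.of e • a.back = b.back }⟩
  of := fun (e : Subtype _) => ⟨FreeGroup.of e, e.property⟩
  unique_lift := by
    intro Y _ f
    let f' : X → (A → Y) ⋊[mulAutArrow] (FreeGroup X) := fun e =>
      ⟨fun b => @f ⟨(), _⟩ ⟨(), b⟩ ⟨e, smul_inv_smul _ b⟩, FreeGroup.of e⟩
    have hex : ∃! F' : FreeGroup X →* (A → Y) ⋊[mulAutArrow] (FreeGroup X),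
        ∀ e, F' (FreeGroup.of e) = f' e :=
      ⟨FreeGroup.lift f', fun e => FreeGroup.lift_apply_of, fun F hF => by
        apply FreeGroup.ext_hom; intro e; rw [hF, FreeGroup.lift_apply_of]⟩
    rcases hex with ⟨F', hF', uF'⟩
    refine ⟨uncurry F' ?_, ?_, ?_⟩
    · suffices SemidirectProduct.rightHom.comp F' = MonoidHom.id _ by
        exact DFunLike.ext_iff.mp this
      apply FreeGroup.ext_hom
      intro x
      rw [MonoidHom.comp_apply, hF']
      rfl
    · rintro ⟨⟨⟩, a : A⟩ ⟨⟨⟩, b⟩ ⟨e, h : FreeGroup.of e • a = b⟩
      change (F' (FreeGroup.of _)).left _ = _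
      rw [hF']
      cases inv_smul_eq_iff.mpr h.symm
      rfl
    · intro E hE
      have : curry E = F' := by
        apply uF'
        intro e
        ext
        · convert! hE _ _ _
          rfl
        · rfl
      apply Functor.hext
      · intro
        apply Unit.ext
      · refine ActionCategory.cases ?_
        intros
        simp only [← this, uncurry_map, curry_apply_left, coe_back, homOfPair.val]
        rfl

section tree

variable {G : Type u} [Groupoid.{u} G] [IsFreeGroupoid G]
  (T : WideSubquiver (Symmetrify <| Generators G)) [Arborescence T]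

/-- The root of `T`, except its type is `G` instead of the type synonym `T`. -/
def rt : G :=
  show T from root T

set_option backward.isDefEq.respectTransparency.types false in
/-- A path in the tree gives a hom, by composition. -/
def hPath : ∀ {a : G}, Path (root T) a → (rt T ⟶ a)
  | _, Path.nil => 𝟙 _
  | _, Path.cons p f => hPath p ≫ Sum.recOn f.val (fun e => of e) fun e => inv (of e)

set_option backward.isDefEq.respectTransparency.types false in
/-- For every vertex `a`, there is a canonical hom from the root, given by the path in the tree. -/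
def tHom (a : G) : rt T ⟶ a :=
  hPath T default

set_option backward.isDefEq.respectTransparency.types false in
/-- Any path to `a` gives `tHom T a`, since paths in the tree are unique. -/
theorem tHom_eq {a : G} (p : Path (root T) a) : tHom T a = hPath T p := by
  rw [tHom, Unique.default_eq]

theorem tHom_root : tHom T (rt T) = 𝟙 _ :=
    _root_.trans
    (tHom_eq T Path.nil) rfl

/-- Any hom in `G` can be made into a loop, by conjugating with `tHom`s. -/
def lHom {a b : G} (p : a ⟶ b) : End (rt T) :=
  tHom T a ≫ p ≫ inv (tHom T b)

set_option backward.isDefEq.respectTransparency false in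
/-- Turning an edge in the spanning tree into a loop gives the identity loop. -/
theorem lHom_eq_id {a b : Generators G} (e) (H : e ∈ wideSubquiverSymmetrify T a b) :
    lHom T (of e) = 𝟙 (rt T) := by
  rw [lHom, ← Category.assoc, IsIso.comp_inv_eq, Category.id_comp]
  rcases H with H | H
  · rw [tHom_eq T (Path.cons default ⟨Sum.inl e, H⟩), hPath]
    rfl
  · rw [tHom_eq T (Path.cons default ⟨Sum.inr e, H⟩), hPath]
    simp only [IsIso.inv_hom_id, Category.comp_id, Category.assoc, tHom]

set_option backward.isDefEq.respectTransparency.types false in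
/-- Since a hom gives a loop, any homomorphism from the vertex group at the root
extends to a functor on the whole groupoid. -/
@[simps]
def fHom {X} [Monoid X] (f : End (rt T) →* X) :
    G ⥤ CategoryTheory.SingleObj X where
  obj _ := ()
  map p := f (lHom T p)
  map_id := by
    intro a
    dsimp only [lHom]
    rw [Category.id_comp, IsIso.hom_inv_id, ← End.one_def, f.map_one, id_as_one]
  map_comp := by
    intros
    rw [comp_as_mul, ← f.map_mul]
    simp only [IsIso.inv_hom_id_assoc, lHom, End.mul_def, Category.assoc]

set_option backward.isDefEq.respectTransparency false in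
open scoped Classical in
/-- Given a free groupoid and an arborescence of its generating quiver, the vertex
group at the root is freely generated by loops coming from generating arrows
in the complement of the tree. -/
def endBasis : FreeGroupBasis
    ((wideSubquiverEquivSetTotal <| wideSubquiverSymmetrify T)ᶜ : Set _) (End (rt T)) :=
  FreeGroupBasis.ofUniqueLift ((wideSubquiverEquivSetTotal <| wideSubquiverSymmetrify T)ᶜ : Set _)
    (fun e => lHom T (of e.val.hom))
    (by
      intro X _ f
      let f' : Labelling (Generators G) X := fun a b e =>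
        if h : e ∈ wideSubquiverSymmetrify T a b then 1 else f ⟨⟨a, b, e⟩, h⟩
      rcases unique_lift f' with ⟨F', hF', uF'⟩
      refine ⟨F'.mapEnd _, ?_, ?_⟩
      · suffices ∀ {x y} (q : x ⟶ y), F'.map (lHom T q) = (F'.map q : X) by
          rintro ⟨⟨a, b, e⟩, h⟩
          simp only [Functor.mapEnd, DFunLike.coe, this, hF']
          exact dif_neg h
        intro x y q
        suffices ∀ {a} (p : Path (root T) a), F'.map (hPath T p) = 1 by
          simp only [this, tHom, comp_as_mul, inv_as_inv, lHom, inv_one, mul_one,
            one_mul, Functor.map_inv, Functor.map_comp]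
        intro a p
        induction p with
        | nil => rw [hPath, F'.map_id, id_as_one]
        | cons p e ih =>
          rw [hPath, F'.map_comp, comp_as_mul, ih, mul_one]
          rcases e with ⟨e | e, eT⟩
          · rw [hF']
            exact dif_pos (Or.inl eT)
          · rw [F'.map_inv, inv_as_inv, inv_eq_one, hF']
            exact dif_pos (Or.inr eT)
      · intro E hE
        ext x
        suffices (fHom T E).map x = F'.map x by
          simpa only [lHom, fHom, IsIso.inv_id, tHom_root,
            Category.id_comp, Category.comp_id] using! this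
        congr
        apply uF'
        intro a b e
        change E (lHom T _) = dite _ _ _
        split_ifs with h
        · rw [lHom_eq_id T e h, ← End.one_def, E.map_one]
        · exact hE ⟨⟨a, b, e⟩, h⟩)

theorem endBasis_apply (e : ((wideSubquiverEquivSetTotal <| wideSubquiverSymmetrify T)ᶜ : Set _)) :
    endBasis T e = lHom T (of e.val.hom) := by
  classical
  show (FreeGroup.lift (fun e : ((wideSubquiverEquivSetTotal <| wideSubquiverSymmetrify T)ᶜ : Set _) =>
    lHom T (of e.val.hom))) (FreeGroup.of e) = _
  rw [FreeGroup.lift_apply_of]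

set_option backward.isDefEq.respectTransparency false in
/-- a generating loop at the root is not in the tree -/
theorem loop_not_mem (a : Generators G) (ha : a = rt T) (e : a ⟶ a) :
    e ∉ wideSubquiverSymmetrify T a a := by
  subst ha
  rintro (H | H)
  · have := (Unique.uniq (inferInstance : Unique (Path (root T) (root T)))
      (Path.cons Path.nil ⟨Sum.inl e, H⟩)).trans
      (Unique.uniq (inferInstance : Unique (Path (root T) (root T))) Path.nil).symm
    exact Nat.succ_ne_zero _ (congrArg Path.length this)
  · have := (Unique.uniq (inferInstance : Unique (Path (root T) (root T)))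
      (Path.cons Path.nil ⟨Sum.inr e, H⟩)).trans
      (Unique.uniq (inferInstance : Unique (Path (root T) (root T))) Path.nil).symm
    exact Nat.succ_ne_zero _ (congrArg Path.length this)

end tree

set_option backward.isDefEq.respectTransparency false in
/-- **Nielsen–Schreier with a loop**: if a generator of a free group lies in a subgroup, it is an
element of some basis of the subgroup. -/
theorem loop_basis {X : Type u} (A : Subgroup (FreeGroup X)) (x : X) (hx : FreeGroup.of x ∈ A) :
    ∃ (ι : Type u) (b : FreeGroupBasis ι A) (j : ι), b j = ⟨FreeGroup.of x, hx⟩ := by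
  let _ : IsFreeGroupoid (ActionCategory (FreeGroup X) (FreeGroup X ⧸ A)) := actFree
  let r : ActionCategory (FreeGroup X) (FreeGroup X ⧸ A) :=
    objEquiv (FreeGroup X) (FreeGroup X ⧸ A) ((1 : FreeGroup X) : FreeGroup X ⧸ A)
  let r' : Symmetrify (Generators (ActionCategory (FreeGroup X) (FreeGroup X ⧸ A))) := r
  have : RootedConnected r' :=
    IsFreeGroupoid.generators_connected (ActionCategory (FreeGroup X) (FreeGroup X ⧸ A)) r
  let T := geodesicSubtree r'
  have hr : r = rt T := rfl
  have hfix : FreeGroup.of x • r.back = r.back := by
    show FreeGroup.of x • ((1 : FreeGroup X) : FreeGroup X ⧸ A) = ((1 : FreeGroup X) : FreeGroup X ⧸ A)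
    rw [← MulAction.mem_stabilizer_iff, MulAction.stabilizer_quotient]
    exact hx
  let e : (show Generators (ActionCategory (FreeGroup X) (FreeGroup X ⧸ A)) from r) ⟶ r :=
    ⟨x, hfix⟩
  have hnm : e ∉ wideSubquiverSymmetrify T r r := loop_not_mem T r hr e
  let j : ((wideSubquiverEquivSetTotal <| wideSubquiverSymmetrify T)ᶜ : Set _) :=
    ⟨⟨r, r, e⟩, hnm⟩
  refine ⟨_, (endBasis T).map (endMulEquivSubgroup A), j, ?_⟩
  rw [FreeGroupBasis.map_apply, endBasis_apply]
  have h1 : lHom T (of j.val.hom) = (of e : r ⟶ r) := by
    show tHom T (rt T) ≫ (of e : r ⟶ r) ≫ inv (tHom T (rt T)) = _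
    rw [tHom_root]
    simp only [Category.id_comp, IsIso.inv_id]
    exact Category.comp_id _
  rw [h1]
  rfl

/-- a primitive element of `F_N` lying in the free factor `F_r` is primitive in `F_r` -/
theorem prim_descend_of_inj {r N : ℕ} (ι : FreeGroup (Fin r) →* FreeGroup (Fin N))
    (hι : Function.Injective ι) (u : FreeGroup (Fin r))
    (h : ∃ i : Fin N, ∃ φ : FreeGroup (Fin N) ≃* FreeGroup (Fin N), φ (FreeGroup.of i) = ι u) :
    ∃ i : Fin r, ∃ φ : FreeGroup (Fin r) ≃* FreeGroup (Fin r), φ (FreeGroup.of i) = u := by
  obtain ⟨i, φ, hφ⟩ := h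
  -- the subgroup `φ⁻¹ (ι F_r)`
  let f : FreeGroup (Fin r) →* FreeGroup (Fin N) := φ.symm.toMonoidHom.comp ι
  have hf : Function.Injective f := φ.symm.injective.comp hι
  have hfu : f u = FreeGroup.of i := by
    show φ.symm (ι u) = _
    rw [← hφ, MulEquiv.symm_apply_apply]
  have hx : FreeGroup.of i ∈ f.range := ⟨u, hfu⟩
  obtain ⟨κ, b, j, hj⟩ := loop_basis f.range i hx
  let θ : FreeGroup (Fin r) ≃* f.range := MonoidHom.ofInjective hf
  have hθ : θ u = ⟨FreeGroup.of i, hx⟩ := by
    apply Subtype.ext
    exact hfu
  let σ : Fin r ≃ κ := Equiv.ofFreeGroupEquiv (θ.trans b.repr)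
  let b' : FreeGroupBasis (Fin r) (FreeGroup (Fin r)) := (b.reindex σ.symm).map θ.symm
  refine ⟨σ.symm j, b'.repr.symm, ?_⟩
  show b' (σ.symm j) = u
  rw [FreeGroupBasis.map_apply, FreeGroupBasis.reindex_apply, Equiv.symm_symm,
    Equiv.apply_symm_apply, hj, ← hθ, MulEquiv.symm_apply_apply]

/-- a primitive element of `F_N` lying in `F_r` is primitive in `F_r` -/
theorem prim_descend {r N : ℕ} (h : r ≤ N) (u : FreeGroup (Fin r))
    (hu : ∃ i : Fin N, ∃ φ : FreeGroup (Fin N) ≃* FreeGroup (Fin N),
      φ (FreeGroup.of i) = FreeGroup.map (Fin.castLE h) u) :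
    ∃ i : Fin r, ∃ φ : FreeGroup (Fin r) ≃* FreeGroup (Fin r), φ (FreeGroup.of i) = u :=
  prim_descend_of_inj (FreeGroup.map (Fin.castLE h))
    (FreeGroup.map_injective (Fin.castLE_injective h)) u hu

end PW6
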