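import Mathlib
import Pool.Agent.Helper307.AO.Growth

/-! Puder–Wu conjecture: from a bound on the number of cyclically reduced words in the orbit to the
growth rate of the orbit. -/

set_option autoImplicit false

namespace PW6

section real
open Filter Topology

/-- roots of an upper bound -/
theorem root_upper (a : ℕ → ℝ) (h0 : ∀ n, 0 ≤ a n) (x : ℝ) (hx : 0 < x) (A : ℝ) (hA : 0 ≤ A) (B : ℕ)
    (hup : ∀ n, a n ≤ A * ((n : ℝ) + 1) ^ B * x ^ n) (y : ℝ) (hy : x < y) :
    ∀ᶠ n : ℕ in atTop, (a n) ^ ((1 : ℝ) / (n : ℝ)) ≤ y := by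
  have hcast : Tendsto (fun n : ℕ => (n : ℝ)) atTop atTop := tendsto_natCast_atTop_atTop
  have hinv : Tendsto (fun n : ℕ => (1 : ℝ) / (n : ℝ)) atTop (𝓝 0) := by
    simpa using tendsto_const_div_atTop_nhds_zero_nat (1 : ℝ)
  have hA' : Tendsto (fun n : ℕ => (A + 1) ^ ((1 : ℝ) / (n : ℝ))) atTop (𝓝 1) := by
    have h1 : Tendsto (fun n : ℕ => (A + 1) ^ ((1 : ℝ) / (n : ℝ))) atTop
        (𝓝 ((A + 1) ^ (0 : ℝ))) :=
      (Real.continuousAt_const_rpow (by positivity)).tendsto.comp hinv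
    simpa using h1
  have hB : Tendsto (fun n : ℕ => ((n : ℝ) + 1) ^ ((B : ℝ) / (n : ℝ))) atTop (𝓝 1) := by
    have h1 := tendsto_rpow_div_mul_add (B : ℝ) 1 (-1) (by norm_num)
    have h2 : Tendsto (fun n : ℕ => (n : ℝ) + 1) atTop atTop :=
      tendsto_atTop_add_const_right _ _ hcast
    have h3 := h1.comp h2
    refine h3.congr ?_
    intro n
    simp only [Function.comp_apply]
    congr 2
    ring
  have hG : Tendsto (fun n : ℕ => (A + 1) ^ ((1 : ℝ) / (n : ℝ)) *
      ((n : ℝ) + 1) ^ ((B : ℝ) / (n : ℝ)) * x) atTop (𝓝 x) := by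
    have := (hA'.mul hB).mul_const x
    simpa using this
  filter_upwards [eventually_ge_atTop 1, hG.eventually (gt_mem_nhds hy)] with n hn hn2
  refine le_trans ?_ hn2.le
  have hn0 : (n : ℝ) ≠ 0 := by positivity
  have h1 : a n ≤ (A + 1) * ((n : ℝ) + 1) ^ B * x ^ n := by
    refine (hup n).trans ?_
    gcongr
    linarith
  have h2 : (a n) ^ ((1 : ℝ) / (n : ℝ)) ≤
      ((A + 1) * ((n : ℝ) + 1) ^ B * x ^ n) ^ ((1 : ℝ) / (n : ℝ)) :=
    Real.rpow_le_rpow (h0 n) h1 (by positivity)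
  refine h2.trans (le_of_eq ?_)
  rw [Real.mul_rpow (by positivity) (by positivity), Real.mul_rpow (by positivity) (by positivity)]
  congr 1
  · congr 1
    rw [← Real.rpow_natCast, ← Real.rpow_mul (by positivity)]
    congr 1
    ring
  · rw [← Real.rpow_natCast, ← Real.rpow_mul hx.le, mul_one_div_cancel hn0, Real.rpow_one]

/-- roots of a lower bound -/
theorem root_lower (a : ℕ → ℝ) (b : ℝ) (hb : 1 < b) (m : ℕ)
    (hlow : ∀ c : ℕ, (b ^ 2) ^ c ≤ a (m + 2 * (c + 1))) (ε : ℝ) (hε : 0 < ε) :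
    ∃ᶠ n : ℕ in atTop, b - ε ≤ (a n) ^ ((1 : ℝ) / (n : ℝ)) := by
  have hb0 : 0 < b := by linarith
  have hinv : Tendsto (fun n : ℕ => (1 : ℝ) / (n : ℝ)) atTop (𝓝 0) := by
    simpa using tendsto_const_div_atTop_nhds_zero_nat (1 : ℝ)
  have hH : Tendsto (fun n : ℕ => b ^ (1 - ((m : ℝ) + 2) * (1 / (n : ℝ)))) atTop (𝓝 b) := by
    have h1 : Tendsto (fun n : ℕ => 1 - ((m : ℝ) + 2) * (1 / (n : ℝ))) atTop (𝓝 1) := by
      have := (hinv.const_mul ((m : ℝ) + 2)).const_sub 1
      simpa using this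
    have h2 : Tendsto (fun n : ℕ => b ^ (1 - ((m : ℝ) + 2) * (1 / (n : ℝ)))) atTop
        (𝓝 (b ^ (1 : ℝ))) :=
      (Real.continuousAt_const_rpow hb0.ne').tendsto.comp h1
    simpa using h2
  have hfH : ∃ᶠ n : ℕ in atTop, b ^ (1 - ((m : ℝ) + 2) * (1 / (n : ℝ))) ≤
      (a n) ^ ((1 : ℝ) / (n : ℝ)) := by
    rw [frequently_atTop]
    intro N
    refine ⟨m + 2 * (N + 1), by omega, ?_⟩
    have hn0 : ((m + 2 * (N + 1) : ℕ) : ℝ) ≠ 0 := by positivity
    have h1 := Real.rpow_le_rpow (z := (1 : ℝ) / ((m + 2 * (N + 1) : ℕ) : ℝ)) (by positivity)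
      (hlow N) (by positivity)
    refine le_trans (le_of_eq ?_) h1
    rw [← pow_mul, ← Real.rpow_natCast, ← Real.rpow_mul hb0.le]
    congr 1
    field_simp
    push_cast
    ring
  have h2 := hH.eventually (lt_mem_nhds (sub_lt_self b hε))
  refine (hfH.and_eventually h2).mono ?_
  intro n hn
  exact hn.2.le.trans hn.1

end real

variable {r : ℕ}

section count
open FreeGroup

/-- cyclically reduced words of length `m` in the orbit of `u` -/
def cyc (u : FreeGroup (Fin r)) (m : ℕ) : Set (List (Fin r × Bool)) :=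
  {L | IsCyclicallyReduced L ∧ L.length = m ∧
    ∃ φ : FreeGroup (Fin r) ≃* FreeGroup (Fin r), φ u = mk L}

theorem cyc_finite (u : FreeGroup (Fin r)) (m : ℕ) : (cyc u m).Finite :=
  (List.finite_length_eq _ m).subset fun _ h => h.2.1

/-- the elements of the orbit of length at most `n` -/
def ball (u : FreeGroup (Fin r)) (n : ℕ) : Set (FreeGroup (Fin r)) :=
  {v | (∃ φ : FreeGroup (Fin r) ≃* FreeGroup (Fin r), φ u = v) ∧ (toWord v).length ≤ n}

theorem ball_finite (u : FreeGroup (Fin r)) (n : ℕ) : (ball u n).Finite := by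
  have h1 : ({l : List (Fin r × Bool) | l.length ≤ n}).Finite := List.finite_length_le _ _
  exact (h1.preimage (toWord_injective.injOn)).subset fun w hw => hw.2

theorem ball_upper (hr : 2 ≤ r) (u : FreeGroup (Fin r)) (x : ℝ) (hx1 : 1 ≤ x)
    (hx : 2 * (r : ℝ) - 1 ≤ x ^ 2) (C : ℝ)
    (H : ∀ m : ℕ, ((cyc u m).ncard : ℝ) ≤ C * x ^ m) (n : ℕ) :
    ((ball u n).ncard : ℝ) ≤ (2 * r * C) * ((n : ℝ) + 1) ^ 2 * x ^ n := by
  classical
  have hne : Nonempty (Fin r) := ⟨⟨0, by omega⟩⟩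
  have hC : 0 ≤ C := by
    have := H 0
    rw [pow_zero, mul_one] at this
    exact le_trans (by positivity) this
  set I : Finset (ℕ × ℕ) := (Finset.range (n + 1) ×ˢ Finset.range (n + 1)).filter
    (fun p => 2 * p.1 + p.2 ≤ n) with hI
  set B : Finset (FreeGroup (Fin r)) := I.biUnion fun p =>
      ((H307PP.RR (X := Fin r) p.1) ×ˢ (cyc_finite u p.2).toFinset).image
        fun q => (mk q.1 * mk q.2 * (mk q.1)⁻¹) with hB
  have hsub : ball u n ⊆ (B : Set (FreeGroup (Fin r))) := by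
    rintro w ⟨⟨φ, hφ⟩, hw⟩
    set R := reduceCyclically w.toWord with hR
    set D := reduceCyclically.conjugator w.toWord with hD
    have hdec : D ++ R ++ invRev D = w.toWord :=
      reduceCyclically.conj_conjugator_reduceCyclically w.toWord
    have hg2 : w = mk D * mk R * (mk D)⁻¹ := by
      rw [← mk_toWord (x := w), ← hdec, ← mul_mk, ← mul_mk, ← inv_mk]
    have hRc : IsCyclicallyReduced R := reduceCyclically.isCyclicallyReduced isReduced_toWord
    have hDred : IsReduced D := H307PP.redsub isReduced_toWord ⟨[], R ++ invRev D, by rw [← hdec]; simp⟩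
    have hlen : (toWord w).length = 2 * D.length + R.length := by
      rw [← hdec]
      simp [invRev_length]; ring
    rw [Finset.mem_coe, hB, Finset.mem_biUnion]
    refine ⟨(D.length, R.length), ?_, ?_⟩
    · rw [hI, Finset.mem_filter, Finset.mem_product, Finset.mem_range, Finset.mem_range]
      exact ⟨⟨by omega, by omega⟩, by omega⟩
    · rw [Finset.mem_image]
      refine ⟨(D, R), Finset.mem_product.2 ⟨H307PP.mem_RR hDred, ?_⟩, hg2.symm⟩
      rw [Set.Finite.mem_toFinset]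
      refine ⟨hRc, rfl, φ.trans (MulAut.conj (mk D)⁻¹), ?_⟩
      rw [MulEquiv.trans_apply, hφ, MulAut.conj_apply, hg2]
      group
  have h1 : ((ball u n).ncard : ℝ) ≤ (B.card : ℝ) := by
    have := Set.ncard_le_ncard hsub (Finset.finite_toSet _)
    rw [Set.ncard_coe_finset] at this
    exact_mod_cast this
  refine h1.trans ?_
  have h2 : (B.card : ℝ) ≤ ∑ p ∈ I, ((((H307PP.RR (X := Fin r) p.1) ×ˢ (cyc_finite u p.2).toFinset).image
        fun q => (mk q.1 * mk q.2 * (mk q.1)⁻¹)).card : ℝ) := by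
    rw [hB]
    exact_mod_cast Finset.card_biUnion_le
  refine h2.trans ?_
  have h3 : ∀ p ∈ I, ((((H307PP.RR (X := Fin r) p.1) ×ˢ (cyc_finite u p.2).toFinset).image
        fun q => (mk q.1 * mk q.2 * (mk q.1)⁻¹)).card : ℝ) ≤ (2 * r * C) * x ^ n := by
    intro p hp
    rw [hI, Finset.mem_filter] at hp
    have e0 : (((H307PP.RR (X := Fin r) p.1) ×ˢ (cyc_finite u p.2).toFinset).image
        fun q => (mk q.1 * mk q.2 * (mk q.1)⁻¹)).card ≤
        (H307PP.RR (X := Fin r) p.1).card * (cyc u p.2).ncard := by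
      refine Finset.card_image_le.trans ?_
      rw [Finset.card_product, Set.ncard_eq_toFinset_card _ (cyc_finite u p.2)]
    have e1 : ((H307PP.RR (X := Fin r) p.1).card : ℝ) ≤ 2 * r * (2 * (r : ℝ) - 1) ^ p.1 := by
      have := H307PP.card_RR (X := Fin r) p.1
      rw [Fintype.card_fin] at this
      have h4 : ((H307PP.RR (X := Fin r) p.1).card : ℝ) ≤ ((2 * r * (2 * r - 1) ^ p.1 : ℕ) : ℝ) := by
        exact_mod_cast this
      have hcast : ((2 * r - 1 : ℕ) : ℝ) = 2 * (r : ℝ) - 1 := by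
        rw [Nat.cast_sub (by omega)]; push_cast; ring
      rw [Nat.cast_mul, Nat.cast_pow, hcast] at h4
      push_cast at h4
      exact h4
    have hr' : (2 : ℝ) ≤ r := by exact_mod_cast hr
    have e2 : (2 * (r : ℝ) - 1) ^ p.1 ≤ x ^ (2 * p.1) := by
      rw [pow_mul]
      exact pow_le_pow_left₀ (by linarith) hx _
    calc ((((H307PP.RR (X := Fin r) p.1) ×ˢ (cyc_finite u p.2).toFinset).image
        fun q => (mk q.1 * mk q.2 * (mk q.1)⁻¹)).card : ℝ)
        ≤ ((H307PP.RR (X := Fin r) p.1).card : ℝ) * ((cyc u p.2).ncard : ℝ) := by exact_mod_cast e0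
      _ ≤ (2 * r * x ^ (2 * p.1)) * (C * x ^ p.2) := by
          refine mul_le_mul (e1.trans ?_) (H p.2) (by positivity) (by positivity)
          exact mul_le_mul_of_nonneg_left e2 (by positivity)
      _ = (2 * r * C) * x ^ (2 * p.1 + p.2) := by ring
      _ ≤ _ := by
          refine mul_le_mul_of_nonneg_left ?_ (by positivity)
          exact pow_le_pow_right₀ hx1 hp.2
  refine (Finset.sum_le_sum h3).trans ?_
  rw [Finset.sum_const, nsmul_eq_mul]
  have h5 : (I.card : ℝ) ≤ ((n : ℝ) + 1) ^ 2 := by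
    have : I.card ≤ (n + 1) * (n + 1) := by
      refine (Finset.card_filter_le _ _).trans ?_
      rw [Finset.card_product, Finset.card_range]
    have h6 : (I.card : ℝ) ≤ (((n + 1) * (n + 1) : ℕ) : ℝ) := by exact_mod_cast this
    refine h6.trans (le_of_eq ?_)
    push_cast; ring
  calc (I.card : ℝ) * ((2 * r * C) * x ^ n) ≤ ((n : ℝ) + 1) ^ 2 * ((2 * r * C) * x ^ n) := by
        refine mul_le_mul_of_nonneg_right h5 ?_
        positivity
    _ = _ := by ring

theorem ball_lower (hr : 2 ≤ r) (u : FreeGroup (Fin r)) (hu : u ≠ 1) :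
    ∃ m : ℕ, ∀ c : ℕ, (2 * (r : ℝ) - 1) ^ c ≤ ((ball u (m + 2 * (c + 1))).ncard : ℝ) := by
  have hne : Nonempty (Fin r) := ⟨⟨0, by omega⟩⟩
  have hcast : ((2 * r - 1 : ℕ) : ℝ) = 2 * (r : ℝ) - 1 := by
    rw [Nat.cast_sub (by omega)]; push_cast; ring
  set R := reduceCyclically u.toWord with hR
  set D := reduceCyclically.conjugator u.toWord with hD
  have hdec : D ++ R ++ invRev D = u.toWord :=
    reduceCyclically.conj_conjugator_reduceCyclically u.toWord
  have hu2 : u = mk D * mk R * (mk D)⁻¹ := by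
    rw [← mk_toWord (x := u), ← hdec, ← mul_mk, ← mul_mk, ← inv_mk]
  have hRc : IsCyclicallyReduced R := reduceCyclically.isCyclicallyReduced isReduced_toWord
  have hRne : R ≠ [] := by
    intro h
    apply hu
    rw [hu2, h, ← one_eq_mk]; group
  refine ⟨R.length, fun c => ?_⟩
  obtain ⟨_, h2⟩ := H307AO.conj_lower (Y := Fin r) (by simpa using hr) R hRc hRne c
  rw [Fintype.card_fin] at h2
  have h3 : {w : FreeGroup (Fin r) | (∃ f : FreeGroup (Fin r), w = f * mk R * f⁻¹) ∧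
      w.norm = R.length + 2 * (c + 1)} ⊆ ball u (R.length + 2 * (c + 1)) := by
    rintro w ⟨⟨f, rfl⟩, hw⟩
    refine ⟨⟨MulAut.conj (f * (mk D)⁻¹), ?_⟩, le_of_eq hw⟩
    rw [MulAut.conj_apply, hu2]; group
  have h4 := h2.trans (Set.ncard_le_ncard h3 (ball_finite _ _))
  rw [← hcast]
  exact_mod_cast h4

end count

open Filter in
/-- the reduction of the conjecture to a bound on the number of cyclically reduced words -/
theorem final_of_cyclic (hr : 2 ≤ r) (u : FreeGroup (Fin r)) (hu : u ≠ 1)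
    (H : ∀ x : ℝ, Real.sqrt (2 * (r : ℝ) - 1) < x →
      ∃ C : ℝ, ∀ m : ℕ, ((cyc u m).ncard : ℝ) ≤ C * x ^ m) (ε : ℝ) (hε : 0 < ε) :
    (∀ᶠ n : ℕ in atTop,
      ((Set.ncard {v : FreeGroup (Fin r) |
          (∃ φ : FreeGroup (Fin r) ≃* FreeGroup (Fin r), φ u = v) ∧
            (FreeGroup.toWord v).length ≤ n} : ℝ) ^ ((1 : ℝ) / (n : ℝ)))
        ≤ Real.sqrt (2 * (r : ℝ) - 1) + ε) ∧
    (∃ᶠ n : ℕ in atTop,
      Real.sqrt (2 * (r : ℝ) - 1) - ε ≤
      ((Set.ncard {v : FreeGroup (Fin r) |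
          (∃ φ : FreeGroup (Fin r) ≃* FreeGroup (Fin r), φ u = v) ∧
            (FreeGroup.toWord v).length ≤ n} : ℝ) ^ ((1 : ℝ) / (n : ℝ)))) := by
  set b := Real.sqrt (2 * (r : ℝ) - 1) with hb
  have hr' : (2 : ℝ) ≤ r := by exact_mod_cast hr
  have hb2 : b ^ 2 = 2 * (r : ℝ) - 1 := Real.sq_sqrt (by linarith)
  have hb1 : 1 < b := by
    rw [hb]
    exact Real.lt_sqrt_of_sq_lt (by linarith)
  refine ⟨?_, ?_⟩
  · obtain ⟨C, hC⟩ := H (b + ε / 2) (by linarith)
    have hC0 : 0 ≤ C := by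
      have := hC 0
      rw [pow_zero, mul_one] at this
      exact le_trans (by positivity) this
    refine root_upper (fun n => ((ball u n).ncard : ℝ)) (fun n => by positivity) (b + ε / 2)
      (by linarith) (2 * r * C) (by positivity) 2 ?_ (b + ε) (by linarith)
    intro n
    refine ball_upper hr u (b + ε / 2) (by linarith) ?_ C hC n
    rw [← hb2]
    exact pow_le_pow_left₀ (by linarith) (by linarith) 2
  · obtain ⟨m, hm⟩ := ball_lower hr u hu
    refine root_lower (fun n => ((ball u n).ncard : ℝ)) b hb1 m ?_ ε hε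
    intro c
    rw [hb2]
    exact hm c

end PW6
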