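import Mathlib
import Pool.Agent.Helper307.AO.J7
import Pool.Agent.Helper693.PW.Defs
import Pool.Agent.Helper825.PW.Final

/-! Puder–Wu conjecture: conjugate cyclically reduced words are rotations of each other; reduction of
the frozen statement to a bound on the number of conjugacy classes. -/

set_option autoImplicit false

namespace PW6
open FreeGroup

variable {Y : Type} [DecidableEq Y]

theorem isCyc_rotate_one {a : Y × Bool} {L : List (Y × Bool)} (h : IsCyclicallyReduced (a :: L)) :
    IsCyclicallyReduced (L ++ [a]) := by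
  rcases L.eq_nil_or_concat with rfl | ⟨M, b, rfl⟩
  · simp
  · simp only [List.concat_eq_append] at h ⊢
    obtain ⟨h1, h2⟩ := h
    have hne : M ++ [b] ≠ [] := by simp
    unfold FreeGroup.IsReduced at h1
    rw [List.isChain_cons] at h1
    refine ⟨?_, ?_⟩
    · unfold FreeGroup.IsReduced
      rw [List.isChain_append]
      refine ⟨h1.2, List.isChain_singleton _, ?_⟩
      intro x hx y hy
      have hy' : y = a := by simpa using hy.symm
      subst hy'
      refine h2 x ?_ y (by simp)
      have hx' : b = x := by simpa using hx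
      rw [Option.mem_def, ← List.cons_append, List.getLast?_append]
      simp [hx']
    · intro x hx y hy
      have hx' : x = a := by simpa using hx.symm
      subst hx'
      refine h1.1 y ?_
      rw [List.head?_append_of_ne_nil _ hne] at hy
      exact hy

theorem isCyc_rotate_last {a : Y × Bool} {L : List (Y × Bool)} (h : IsCyclicallyReduced (L ++ [a])) :
    IsCyclicallyReduced (a :: L) := by
  rcases L with _ | ⟨b, M⟩
  · simp
  · obtain ⟨h1, h2⟩ := h
    unfold FreeGroup.IsReduced at h1
    rw [List.isChain_append] at h1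
    refine ⟨?_, ?_⟩
    · unfold FreeGroup.IsReduced
      rw [List.isChain_cons]
      refine ⟨?_, h1.1⟩
      intro y hy
      refine h2 a (by rw [Option.mem_def, List.getLast?_append]; simp) y ?_
      simpa using hy
    · intro x hx y hy
      have hy' : y = a := by simpa using hy.symm
      subst hy'
      refine h1.2.2 x ?_ y (by simp)
      have hne : b :: M ≠ [] := by simp
      rw [← List.singleton_append, List.getLast?_append, List.getLast?_eq_some_getLast hne] at hx
      rw [List.getLast?_eq_some_getLast hne]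
      simpa using hx

/-- conjugate cyclically reduced words are rotations of each other -/
theorem conj_rot_aux (n : ℕ) : ∀ (D L L' : List (Y × Bool)), D.length = n → IsReduced D →
    IsCyclicallyReduced L → IsCyclicallyReduced L' → mk L' = (mk D)⁻¹ * mk L * mk D →
    L ~r L' := by
  induction n with
  | zero =>
    intro D L L' hn _ hL hL' h
    have hD : D = [] := List.length_eq_zero_iff.1 hn
    subst hD
    rw [← one_eq_mk, inv_one, one_mul, mul_one] at h
    have h1 := congrArg toWord h
    rw [toWord_mk, toWord_mk, hL.1.reduce_eq, hL'.1.reduce_eq] at h1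
    rw [h1]
  | succ n ih =>
    intro D L L' hn hD hL hL' h
    obtain ⟨d, D', rfl⟩ : ∃ d D', D = d :: D' := by
      cases D with
      | nil => simp at hn
      | cons d D' => exact ⟨d, D', rfl⟩
    have hn' : D'.length = n := by simpa using hn
    have hD' : IsReduced D' := by
      unfold FreeGroup.IsReduced at *
      exact (List.isChain_cons.1 hD).2
    have hmk : mk (d :: D') = mk [d] * mk D' := by rw [mul_mk]; rfl
    rcases eq_or_ne L [] with rfl | hne
    · have : mk L' = 1 := by rw [h, ← one_eq_mk]; group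
      have h1 := congrArg toWord this
      rw [toWord_mk, hL'.1.reduce_eq, toWord_one] at h1
      rw [h1]
    by_cases hhead : d = L.head hne
    · -- `L = d :: M`
      obtain ⟨M, rfl⟩ : ∃ M, L = d :: M := ⟨L.tail, by rw [hhead, List.cons_head_tail]⟩
      have hrot : IsCyclicallyReduced (M ++ [d]) := isCyc_rotate_one hL
      have := ih D' (M ++ [d]) L' hn' hD' hrot hL' (by
        rw [h, hmk, ← mul_mk]
        have : mk (d :: M) = mk [d] * mk M := by rw [mul_mk]; rfl
        rw [this]; group)
      refine List.IsRotated.trans ?_ this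
      exact ⟨1, by simp⟩
    by_cases hlast : (L.getLast hne).1 = d.1 → (L.getLast hne).2 = d.2
    · -- the conjugate is reduced and not cyclically reduced
      exfalso
      have hred := H307AO.conj_lower_red L D' d hL.1 hne hD hlast hhead
      have h1 : mk L' = mk (invRev (d :: D') ++ L ++ (d :: D')) := by
        rw [h, inv_mk, mul_mk, mul_mk]
      have h2 := congrArg toWord h1
      rw [toWord_mk, toWord_mk, hL'.1.reduce_eq, hred.reduce_eq] at h2
      -- first and last letters
      rcases (d :: D').eq_nil_or_concat with h3 | ⟨M, b, h3⟩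
      · simp at h3
      · rw [List.concat_eq_append] at h3
        rw [h3] at h2
        have h4 : invRev (M ++ [b]) = (b.1, !b.2) :: invRev M := by
          simp [invRev]
        rw [h4] at h2
        have h5 := hL'.2 b (by
          rw [h2, Option.mem_def, ← List.append_assoc, List.getLast?_append]; simp)
          (b.1, !b.2) (by rw [h2]; simp) rfl
        simp at h5
    · -- `L = M ++ [d⁻¹]`
      have hl : (L.getLast hne) = (d.1, !d.2) := by
        have h1 : (L.getLast hne).1 = d.1 := by
          by_contra hc; exact hlast fun h => absurd h hc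
        have h2 : (L.getLast hne).2 ≠ d.2 := fun hc => hlast fun _ => hc
        refine Prod.ext h1 ?_
        show _ = !d.2
        revert h2
        cases (L.getLast hne).2 <;> cases d.2 <;> simp
      obtain ⟨M, rfl⟩ : ∃ M, L = M ++ [(d.1, !d.2)] :=
        ⟨L.dropLast, by rw [← hl, List.dropLast_append_getLast]⟩
      have hrot : IsCyclicallyReduced ((d.1, !d.2) :: M) := isCyc_rotate_last hL
      have hinv : mk [(d.1, !d.2)] = (mk [d])⁻¹ := by rw [inv_mk]; simp [invRev]
      have := ih D' ((d.1, !d.2) :: M) L' hn' hD' hrot hL' (by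
        rw [h, hmk, ← mul_mk]
        have : mk ((d.1, !d.2) :: M) = mk [(d.1, !d.2)] * mk M := by rw [mul_mk]; rfl
        rw [this, hinv]; group)
      refine List.IsRotated.trans ?_ this
      refine List.IsRotated.symm ⟨1, by simp⟩

theorem conj_rot {L L' : List (Y × Bool)} (hL : IsCyclicallyReduced L)
    (hL' : IsCyclicallyReduced L') (h : IsConj (mk L) (mk L')) : L ~r L' := by
  obtain ⟨c, hc⟩ := isConj_iff.1 h
  refine conj_rot_aux _ (toWord c⁻¹) L L' rfl isReduced_toWord hL hL' ?_
  rw [mk_toWord, inv_inv, hc]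

theorem inv_ne_iff {N : ℕ} (a b : PW.Z N) : PW.inv a ≠ b ↔ (a.1 = b.1 → a.2 = b.2) := by
  obtain ⟨a1, a2⟩ := a
  obtain ⟨b1, b2⟩ := b
  simp only [PW.inv, ne_eq, Prod.mk.injEq, not_and]
  refine forall_congr' fun _ => ?_
  cases a2 <;> cases b2 <;> simp

theorem zip_chain {N : ℕ} (M : List (PW.Z N)) : ∀ (a b : PW.Z N),
    (∀ t ∈ List.zip ((a :: M).map PW.inv) (M ++ [b]), t.1 ≠ t.2) ↔
      List.IsChain (fun x y : PW.Z N => x.1 = y.1 → x.2 = y.2) (a :: (M ++ [b])) := by
  induction M with
  | nil =>
    intro a b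
    simp [← inv_ne_iff]
  | cons c M ih =>
    intro a b
    rw [List.cons_append, List.isChain_cons_cons, ← ih c b, List.map_cons, List.zip_cons_cons,
      List.forall_mem_cons, ← inv_ne_iff]

theorem tight_iff {N : ℕ} (L : List (PW.Z N)) : PW.Tight L ↔ IsCyclicallyReduced L := by
  rcases L with _ | ⟨a, M⟩
  · constructor
    · intro _; exact IsCyclicallyReduced.nil
    · intro _ t ht; simp [PW.turns] at ht
  · unfold PW.Tight PW.turns
    have h1 : (a :: M).rotate 1 = M ++ [a] := by simp
    rw [h1, zip_chain M a a, ← List.cons_append, List.isChain_append]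
    unfold IsCyclicallyReduced FreeGroup.IsReduced
    constructor
    · rintro ⟨h2, -, h3⟩
      exact ⟨h2, fun x hx y hy => h3 x hx y (by simpa using hy)⟩
    · rintro ⟨h2, h3⟩
      exact ⟨h2, List.isChain_singleton _, fun x hx y hy => h3 x hx y (by simpa using hy)⟩

theorem isCyc_map {r N : ℕ} (j : Fin r → Fin N) (hj : Function.Injective j)
    {L : List (Fin r × Bool)} (h : IsCyclicallyReduced L) :
    IsCyclicallyReduced (L.map fun x => (j x.1, x.2)) := by
  obtain ⟨h1, h2⟩ := h
  refine ⟨?_, ?_⟩
  · unfold FreeGroup.IsReduced at *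
    rw [List.isChain_map]
    refine h1.imp ?_
    intro a b hab h
    exact hab (hj h)
  · intro x hx y hy h
    rw [List.getLast?_map] at hx
    rw [List.head?_map] at hy
    obtain ⟨x', hx', rfl⟩ := Option.map_eq_some_iff.1 hx
    obtain ⟨y', hy', rfl⟩ := Option.map_eq_some_iff.1 hy
    exact h2 x' hx' y' hy' (hj h)

/-- the conjugacy classes of the orbit of `u` represented by a tight list of length `n` in the
first `r` letters -/
def cls (r : ℕ) {N : ℕ} (u : FreeGroup (Fin N)) (n : ℕ) : Set (ConjClasses (FreeGroup (Fin N))) :=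
  {c | ∃ L : List (PW.Z N), PW.Tight L ∧ L.length = n ∧ (∀ x ∈ L, (x.1 : ℕ) < r) ∧ PW.Orb u L ∧
    ConjClasses.mk (mk L) = c}

theorem cls_finite (r : ℕ) {N : ℕ} (u : FreeGroup (Fin N)) (n : ℕ) : (cls r u n).Finite := by
  have h1 : ({l : List (PW.Z N) | l.length = n}).Finite := List.finite_length_eq _ _
  refine (h1.image fun L => ConjClasses.mk (mk L)).subset ?_
  rintro c ⟨L, -, h2, -, -, h3⟩
  exact ⟨L, h2, h3⟩

/-- the automorphism of `F_N` extending an automorphism of the free factor `F_r` -/
theorem extend_aut {r N : ℕ} (h : r ≤ N) (φ : FreeGroup (Fin r) ≃* FreeGroup (Fin r)) :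
    ∃ Φ : FreeGroup (Fin N) ≃* FreeGroup (Fin N),
      ∀ w, Φ (FreeGroup.map (Fin.castLE h) w) = FreeGroup.map (Fin.castLE h) (φ w) := by
  let ext : (FreeGroup (Fin r) →* FreeGroup (Fin r)) → (FreeGroup (Fin N) →* FreeGroup (Fin N)) :=
    fun f => FreeGroup.lift fun i => if hi : i.1 < r then
      FreeGroup.map (Fin.castLE h) (f (FreeGroup.of ⟨i.1, hi⟩)) else FreeGroup.of i
  have hext : ∀ f w, ext f (FreeGroup.map (Fin.castLE h) w) = FreeGroup.map (Fin.castLE h) (f w) := by
    intro f w
    have : (ext f).comp (FreeGroup.map (Fin.castLE h)) = (FreeGroup.map (Fin.castLE h)).comp f := by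
      apply FreeGroup.ext_hom
      intro i
      show (FreeGroup.lift fun i : Fin N => if hi : i.1 < r then
        FreeGroup.map (Fin.castLE h) (f (FreeGroup.of ⟨i.1, hi⟩)) else FreeGroup.of i)
          (FreeGroup.of (Fin.castLE h i)) = _
      rw [FreeGroup.lift_apply_of, dif_pos (show (Fin.castLE h i).1 < r from i.2)]
      rfl
    exact DFunLike.congr_fun this w
  have hcomp : ∀ f g, f.comp g = MonoidHom.id _ → (ext f).comp (ext g) = MonoidHom.id _ := by
    intro f g hfg
    apply FreeGroup.ext_hom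
    intro i
    rw [MonoidHom.comp_apply, MonoidHom.id_apply]
    by_cases hi : i.1 < r
    · have h1 : ext g (FreeGroup.of i) = FreeGroup.map (Fin.castLE h) (g (FreeGroup.of ⟨i.1, hi⟩)) := by
        simp only [ext, FreeGroup.lift_apply_of, dif_pos hi]
      have h2 : f (g (FreeGroup.of ⟨i.1, hi⟩)) = FreeGroup.of ⟨i.1, hi⟩ := DFunLike.congr_fun hfg _
      rw [h1, hext, h2]
      rfl
    · have h1 : ∀ f, ext f (FreeGroup.of i) = FreeGroup.of i := by
        intro f
        simp only [ext, FreeGroup.lift_apply_of, dif_neg hi]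
      rw [h1, h1]
  refine ⟨MonoidHom.toMulEquiv (ext φ.toMonoidHom) (ext φ.symm.toMonoidHom)
    (hcomp _ _ (by ext; simp)) (hcomp _ _ (by ext; simp)), fun w => ?_⟩
  exact hext _ w

theorem cyc_card_le {r N : ℕ} (h : r ≤ N) (u : FreeGroup (Fin r)) (m : ℕ) :
    (cyc u m).ncard ≤ (m + 1) * (cls r (FreeGroup.map (Fin.castLE h) u) m).ncard := by
  classical
  rw [Set.ncard_eq_toFinset_card _ (cyc_finite u m), Set.ncard_eq_toFinset_card _ (cls_finite r _ m)]
  set e : Fin r × Bool → Fin N × Bool := fun x => (Fin.castLE h x.1, x.2) with he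
  have hinj : Function.Injective e := by
    rintro ⟨a, b⟩ ⟨c, d⟩ hh
    simp only [he, Prod.mk.injEq] at hh
    exact Prod.ext (Fin.castLE_injective h hh.1) hh.2
  refine Finset.card_le_mul_card_image_of_maps_to
    (f := fun L : List (Fin r × Bool) => ConjClasses.mk (FreeGroup.mk (L.map e))) ?_ (m + 1) ?_
  · intro L hL
    rw [Set.Finite.mem_toFinset] at hL ⊢
    obtain ⟨h1, h2, φ, hφ⟩ := hL
    refine ⟨L.map e, (tight_iff _).2 (isCyc_map _ (Fin.castLE_injective h) h1), ?_, ?_, ?_, rfl⟩
    · rw [List.length_map, h2]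
    · intro x hx
      obtain ⟨y, -, rfl⟩ := List.mem_map.1 hx
      exact y.1.2
    · obtain ⟨Φ, hΦ⟩ := extend_aut h φ
      refine ⟨Φ, ?_⟩
      rw [hΦ, hφ]
      exact IsConj.refl _
  · intro b _
    rcases (Finset.filter (fun L : List (Fin r × Bool) =>
      ConjClasses.mk (FreeGroup.mk (L.map e)) = b) (cyc_finite u m).toFinset).eq_empty_or_nonempty
      with h0 | ⟨L0, hL0⟩
    · rw [h0]; simp
    · rw [Finset.mem_filter, Set.Finite.mem_toFinset] at hL0
      obtain ⟨⟨h1, h2, -⟩, h3⟩ := hL0
      refine le_trans (Finset.card_le_card (t := (Finset.range (m + 1)).image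
        fun k => L0.rotate k) ?_) ?_
      · intro L hL
        rw [Finset.mem_filter, Set.Finite.mem_toFinset] at hL
        obtain ⟨⟨h4, h5, -⟩, h6⟩ := hL
        have hc : IsConj (FreeGroup.mk (L0.map e)) (FreeGroup.mk (L.map e)) :=
          ConjClasses.mk_eq_mk_iff_isConj.1 (h3.trans h6.symm)
        have hrot := conj_rot (isCyc_map _ (Fin.castLE_injective h) h1)
          (isCyc_map _ (Fin.castLE_injective h) h4) hc
        obtain ⟨k, hk, hk2⟩ := List.isRotated_iff_mod.1 hrot
        rw [Finset.mem_image]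
        refine ⟨k, Finset.mem_range.2 ?_, ?_⟩
        · rw [List.length_map, h2] at hk; omega
        · apply List.map_injective_iff.2 hinj
          rw [List.map_rotate]
          exact hk2
      · refine Finset.card_image_le.trans ?_
        rw [Finset.card_range]

theorem poly_absorb (y x : ℝ) (hy : 0 < y) (hyx : y < x) :
    ∃ K : ℝ, 0 ≤ K ∧ ∀ m : ℕ, ((m : ℝ) + 1) * y ^ m ≤ K * x ^ m := by
  set δ : ℝ := min 1 (x / y - 1) with hδ
  have hxy : 1 < x / y := (one_lt_div hy).2 hyx
  have hδ0 : 0 < δ := lt_min one_pos (by linarith)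
  refine ⟨1 / δ, by positivity, fun m => ?_⟩
  have h1 : 1 + (m : ℝ) * (x / y - 1) ≤ (1 + (x / y - 1)) ^ m :=
    one_add_mul_le_pow (by linarith) m
  have h2 : δ * ((m : ℝ) + 1) ≤ 1 + (m : ℝ) * (x / y - 1) := by
    have h3 : δ ≤ 1 := min_le_left _ _
    have h4 : δ ≤ x / y - 1 := min_le_right _ _
    have h5 : (m : ℝ) * δ ≤ (m : ℝ) * (x / y - 1) := mul_le_mul_of_nonneg_left h4 (by positivity)
    linarith
  have h6 : δ * ((m : ℝ) + 1) ≤ (x / y) ^ m := by
    refine (h2.trans h1).trans (le_of_eq ?_)
    congr 1; ring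
  have h7 : (x / y) ^ m * y ^ m = x ^ m := by
    rw [← mul_pow, div_mul_cancel₀ _ hy.ne']
  have h8 : δ * (((m : ℝ) + 1) * y ^ m) ≤ x ^ m := by
    rw [← h7, ← mul_assoc]
    exact mul_le_mul_of_nonneg_right h6 (by positivity)
  rw [div_mul_eq_mul_div, one_mul, le_div_iff₀ hδ0]
  linarith

open Filter in
/-- **Reduction of the frozen statement** to a bound on the number of conjugacy classes with a tight
representative of length `n` in the first `r` letters. -/
theorem final_of {r N : ℕ} (hr : 2 ≤ r) (h : r ≤ N) (u : FreeGroup (Fin r)) (hu : u ≠ 1)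
    (H : ∀ ε : ℝ, 0 < ε → ∃ C : ℝ, ∀ n : ℕ,
      ((cls r (FreeGroup.map (Fin.castLE h) u) n).ncard : ℝ) ≤
        C * (Real.sqrt (2 * (r : ℝ) - 1) + ε) ^ n) (ε : ℝ) (hε : 0 < ε) :
    (∀ᶠ n : ℕ in atTop,
      ((Set.ncard {v : FreeGroup (Fin r) |
          (∃ φ : FreeGroup (Fin r) ≃* FreeGroup (Fin r), φ u = v) ∧
            (FreeGroup.toWord v).length ≤ n} : ℝ) ^ ((1 : ℝ) / (n : ℝ)))
        ≤ Real.sqrt (2 * (r : ℝ) - 1) + ε) ∧
    (∃ᶠ n : ℕ in atTop,
      Real.sqrt (2 * (r : ℝ) - 1) - ε ≤
      ((Set.ncard {v : FreeGroup (Fin r) |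
          (∃ φ : FreeGroup (Fin r) ≃* FreeGroup (Fin r), φ u = v) ∧
            (FreeGroup.toWord v).length ≤ n} : ℝ) ^ ((1 : ℝ) / (n : ℝ)))) := by
  refine final_of_cyclic hr u hu ?_ ε hε
  intro x hx
  set b := Real.sqrt (2 * (r : ℝ) - 1) with hb
  have hb0 : 0 ≤ b := Real.sqrt_nonneg _
  obtain ⟨C, hC⟩ := H ((x - b) / 2) (by linarith)
  have hC0 : 0 ≤ C := by
    have := hC 0
    rw [pow_zero, mul_one] at this
    exact le_trans (by positivity) this
  obtain ⟨K, hK0, hK⟩ := poly_absorb (b + (x - b) / 2) x (by linarith) (by linarith)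
  refine ⟨C * K, fun m => ?_⟩
  have h1 : ((cyc u m).ncard : ℝ) ≤
      ((m : ℝ) + 1) * ((cls r (FreeGroup.map (Fin.castLE h) u) m).ncard : ℝ) := by
    exact_mod_cast cyc_card_le h u m
  calc ((cyc u m).ncard : ℝ) ≤ ((m : ℝ) + 1) * (C * (b + (x - b) / 2) ^ m) :=
        h1.trans (mul_le_mul_of_nonneg_left (hC m) (by positivity))
    _ = C * (((m : ℝ) + 1) * (b + (x - b) / 2) ^ m) := by ring
    _ ≤ C * (K * x ^ m) := mul_le_mul_of_nonneg_left (hK m) hC0
    _ = C * K * x ^ m := by ring

end PW6
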