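import Mathlib
import Pool.Agent.Helper825.PW.NS
import Pool.Agent.Helper825.PW.Rot

/-! Puder–Wu conjecture: glue between the output of module M5b and the frozen statement. -/

set_option autoImplicit false

namespace PW6
open FreeGroup

/-- conjugate tight lists are rotations of each other -/
theorem tight_conj_rot {N : ℕ} {L L' : List (PW.Z N)} (hL : PW.Tight L) (hL' : PW.Tight L')
    (h : IsConj (FreeGroup.mk L) (FreeGroup.mk L')) : L ~r L' :=
  conj_rot ((tight_iff _).1 hL) ((tight_iff _).1 hL') h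

/-- conjugate tight lists have the same length -/
theorem tight_conj_length {N : ℕ} {L L' : List (PW.Z N)} (hL : PW.Tight L) (hL' : PW.Tight L')
    (h : IsConj (FreeGroup.mk L) (FreeGroup.mk L')) : L.length = L'.length :=
  (tight_conj_rot hL hL' h).perm.length_eq

/-- the set of classes of module M5b -/
def cls5 (r : ℕ) {N : ℕ} (u : FreeGroup (Fin N)) (n : ℕ) : Set (ConjClasses (FreeGroup (Fin N))) :=
  {c | ∃ L : List (PW.Z N), PW.Orb u L ∧ PW.Tight L ∧ L ≠ [] ∧
    (∀ i : Fin N, r ≤ i.val → PW.deg L i = 0) ∧ L.length = n ∧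
    ConjClasses.mk (FreeGroup.mk L) = c}

theorem cls_eq_cls5 (r : ℕ) {N : ℕ} (u : FreeGroup (Fin N)) (hu : u ≠ 1) (n : ℕ) :
    cls r u n = cls5 r u n := by
  ext c
  constructor
  · rintro ⟨L, h1, h2, h3, h4, h5⟩
    refine ⟨L, h4, h1, ?_, ?_, h2, h5⟩
    · rintro rfl
      obtain ⟨φ, hφ⟩ := h4
      rw [← one_eq_mk] at hφ
      have h6 : φ u = 1 := isConj_one_right.1 hφ.symm
      apply hu
      apply φ.injective
      rw [h6, _root_.map_one]
    · intro i hi
      unfold PW.deg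
      rw [List.countP_eq_zero]
      intro x hx
      have := h3 x hx
      simp only [decide_eq_true_eq]
      rintro rfl
      omega
  · rintro ⟨L, h1, h2, -, h3, h4, h5⟩
    refine ⟨L, h2, h4, ?_, h1, h5⟩
    intro x hx
    by_contra hc
    have := h3 x.1 (by omega)
    unfold PW.deg at this
    rw [List.countP_eq_zero] at this
    have h6 := this x hx
    simp at h6

open Filter in
/-- the frozen statement `S02165` from the output of module M5b -/
theorem final_m5b
    (H : ∀ (r : ℕ) (_ : 2 ≤ r) (u : FreeGroup (Fin (3 * r))) (_ : u ≠ 1)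
      (_ : ¬ ∃ (φ : FreeGroup (Fin (3 * r)) ≃* FreeGroup (Fin (3 * r))) (i : Fin (3 * r)),
        φ (FreeGroup.of i) = u) (x : ℝ) (_ : Real.sqrt (2 * (r : ℝ) - 1) < x),
      ∃ K : ℝ, ∀ n : ℕ, ({c : ConjClasses (FreeGroup (Fin (3 * r))) | ∃ L : List (PW.Z (3 * r)),
        PW.Orb u L ∧ PW.Tight L ∧ L ≠ [] ∧
        (∀ i : Fin (3 * r), r ≤ i.val → PW.deg L i = 0) ∧ L.length = n ∧
        ConjClasses.mk (FreeGroup.mk L) = c}.ncard : ℝ) ≤ K * x ^ n) :
    ∀ r : ℕ, 2 ≤ r → ∀ u : FreeGroup (Fin r), u ≠ 1 →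
      (∀ i : Fin r, ¬ ∃ φ : FreeGroup (Fin r) ≃* FreeGroup (Fin r), φ (FreeGroup.of i) = u) →
      ∀ ε : ℝ, 0 < ε →
        (∀ᶠ n : ℕ in atTop,
          ((Set.ncard {v : FreeGroup (Fin r) |
              (∃ φ : FreeGroup (Fin r) ≃* FreeGroup (Fin r), φ u = v) ∧
                (FreeGroup.toWord v).length ≤ n} : ℝ) ^ ((1 : ℝ) / (n : ℝ)))
            ≤ Real.sqrt (2 * (r : ℝ) - 1) + ε) ∧
        (∃ᶠ n : ℕ in atTop,
          Real.sqrt (2 * (r : ℝ) - 1) - ε ≤
          ((Set.ncard {v : FreeGroup (Fin r) |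
              (∃ φ : FreeGroup (Fin r) ≃* FreeGroup (Fin r), φ u = v) ∧
                (FreeGroup.toWord v).length ≤ n} : ℝ) ^ ((1 : ℝ) / (n : ℝ)))) := by
  intro r hr u hu hnp ε hε
  have hle : r ≤ 3 * r := by omega
  have hinj : Function.Injective (FreeGroup.map (Fin.castLE hle)) :=
    FreeGroup.map_injective (Fin.castLE_injective _)
  have hu' : FreeGroup.map (Fin.castLE hle) u ≠ 1 := fun h => hu (hinj (by rw [h, _root_.map_one]))
  refine final_of (N := 3 * r) hr hle u hu ?_ ε hε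
  intro δ hδ
  obtain ⟨K, hK⟩ := H r hr (FreeGroup.map (Fin.castLE hle) u) hu' (by
    rintro ⟨φ, i, h⟩
    obtain ⟨j, hj⟩ := prim_descend hle u ⟨i, φ, h⟩
    exact hnp j hj) (Real.sqrt (2 * (r : ℝ) - 1) + δ) (by linarith)
  refine ⟨K, fun n => ?_⟩
  rw [cls_eq_cls5 r _ hu' n]
  exact hK n

end PW6
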